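import Pool.Agent.Helper28_TP.StS

/-!
# Module MANY (MP_e1bfc2_pr, squad TPM): many boundary points are hit
-/

set_option autoImplicit false

namespace Pool.Agent.TP.H10

open Pool.Agent.TP

variable {k : ℕ} {N : Finset (Pt k)} {ρ : ℕ}

/-- the first exit from the box -/
theorem first_exit {A : Finset (Pt k)} {n : ℕ} {s y : Pt k} (hs : s ∈ bx (0 : Pt k) n)
    (h : Conn N ↑A s y) :
    (y ∈ bx (0 : Pt k) n ∧ Conn N ↑(A ∩ bx (0 : Pt k) n) s y) ∨
    ∃ x v, x ∈ bx (0 : Pt k) n ∧ Conn N ↑(A ∩ bx (0 : Pt k) n) s x ∧ v - x ∈ N ∧ v ∈ A ∧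
      v ∉ bx (0 : Pt k) n := by
  induction h with
  | refl => exact Or.inl ⟨hs, Relation.ReflTransGen.refl⟩
  | @tail b c _ hbc ih =>
    rcases ih with ⟨h1, h2⟩ | h
    · by_cases hc : c ∈ bx (0 : Pt k) n
      · refine Or.inl ⟨hc, Relation.ReflTransGen.tail h2 ⟨hbc.1, ?_⟩⟩
        have hcA : c ∈ A := hbc.2
        exact_mod_cast Finset.mem_inter.2 ⟨hcA, hc⟩
      · exact Or.inr ⟨b, c, h1, h2, hbc.1, hbc.2, hc⟩
    · exact Or.inr h

theorem near_layer (hN : GoodN N ρ) {n : ℕ} (hn : ρ ≤ n) {x v : Pt k}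
    (hx : x ∈ bx (0 : Pt k) n) (hv : v ∉ bx (0 : Pt k) n) (hvx : v - x ∈ N) :
    x ∈ lay k n ρ ∧ v ∈ bx (0 : Pt k) (n + ρ) := by
  have hb := hN.bd _ hvx
  constructor
  · rw [lay, Finset.mem_sdiff]
    refine ⟨hx, fun hx2 => hv ?_⟩
    rw [mem_bx] at hx2 ⊢
    intro i
    have h1 := hx2 i
    have h2 := hb i
    rw [Pi.zero_apply, sub_zero] at h1 ⊢
    rw [Pi.sub_apply] at h2
    rw [Nat.cast_sub hn] at h1
    rw [abs_le] at *
    constructor <;> linarith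
  · rw [mem_bx] at hx ⊢
    intro i
    have h1 := hx i
    have h2 := hb i
    rw [Pi.zero_apply, sub_zero] at h1 ⊢
    rw [Pi.sub_apply] at h2
    push_cast
    rw [abs_le] at *
    constructor <;> linarith

/-- probability that a set is avoided -/
theorem avoid_prob {α : Type} [DecidableEq α] (W T : Finset α) (hT : T ⊆ W) (p : ℝ) :
    PS W (fun _ => p) (fun C => Disjoint C T) = (1 - p) ^ T.card := by
  classical
  rw [PS_marg hT]
  · rw [PS_def, EX, Finset.sum_eq_single ∅]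
    · simp [wt]
    · intro A hA hA2
      rw [if_neg, mul_zero]
      intro h
      exact hA2 (Finset.disjoint_self_iff_empty A |>.1 (h.mono_right (Finset.mem_powerset.1 hA)))
    · intro h
      exact absurd (Finset.empty_mem_powerset T) h
  · intro A _
    rw [Finset.disjoint_iff_inter_eq_empty, Finset.disjoint_iff_inter_eq_empty,
      Finset.inter_assoc, Finset.inter_self]

/-- outer neighbours of the hit points of the layer -/
noncomputable def outer (N : Finset (Pt k)) (m n ρ : ℕ) (B : Finset (Pt k)) : Finset (Pt k) := by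
  classical
  exact (bx (0 : Pt k) (n + ρ) \ bx (0 : Pt k) n).filter
    (fun v => ∃ x ∈ lay k n ρ, Hit N m B x ∧ v - x ∈ N)

theorem outer_sub (m n : ℕ) (B : Finset (Pt k)) :
    outer N m n ρ B ⊆ bx (0 : Pt k) (n + ρ) \ bx (0 : Pt k) n := by
  classical
  unfold outer
  exact Finset.filter_subset _ _

theorem outer_card (m n : ℕ) (B : Finset (Pt k)) :
    (outer N m n ρ B).card ≤ cnt N m (lay k n ρ) B * N.card := by
  classical
  have h : outer N m n ρ B ⊆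
      (((lay k n ρ).filter (Hit N m B)) ×ˢ N).image (fun q => q.1 + q.2) := by
    intro v hv
    unfold outer at hv
    rw [Finset.mem_filter] at hv
    obtain ⟨_, x, hx, hh, hvx⟩ := hv
    rw [Finset.mem_image]
    refine ⟨(x, v - x), ?_, by simp⟩
    rw [Finset.mem_product, Finset.mem_filter]
    exact ⟨⟨hx, hh⟩, hvx⟩
  refine (Finset.card_le_card h).trans (Finset.card_image_le.trans ?_)
  rw [Finset.card_product]
  unfold cnt
  refine Nat.mul_le_mul_right _ (le_of_eq ?_)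
  congr

theorem cnt_pos (m : ℕ) (S A : Finset (Pt k)) : 1 ≤ cnt N m S A ↔ ∃ x ∈ S, Hit N m A x := by
  classical
  unfold cnt
  rw [Nat.succ_le_iff, Finset.card_pos, Finset.filter_nonempty_iff]

theorem bx_mono {m n : ℕ} (h : m ≤ n) : bx (0 : Pt k) m ⊆ bx (0 : Pt k) n := by
  intro x hx
  rw [mem_bx] at hx ⊢
  intro i
  exact (hx i).trans (by exact_mod_cast h)

theorem lay_succ (n : ℕ) : lay k (n + ρ) ρ = bx (0 : Pt k) (n + ρ) \ bx (0 : Pt k) n := by
  rw [lay, Nat.add_sub_cancel]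

/-- if the outer layer is hit, then the outer neighbours are -/
theorem hit_outer (hN : GoodN N ρ) {m n : ℕ} (hn : ρ ≤ n) (hmn : m ≤ n) {B C : Finset (Pt k)}
    (hB : B ⊆ bx (0 : Pt k) n) (hC : C ⊆ bx (0 : Pt k) (n + ρ) \ bx (0 : Pt k) n)
    (h : ∃ y ∈ lay k (n + ρ) ρ, Hit N m (B ∪ C) y) :
    1 ≤ cnt N m (lay k n ρ) B ∧ ¬ Disjoint C (outer N m n ρ B) := by
  classical
  obtain ⟨y, hy, s, hs, hc⟩ := h
  rw [lay_succ, Finset.mem_sdiff] at hy
  have hAB : (B ∪ C) ∩ bx (0 : Pt k) n = B := by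
    ext z
    simp only [Finset.mem_inter, Finset.mem_union]
    constructor
    · rintro ⟨h1 | h1, h2⟩
      · exact h1
      · exact absurd h2 (Finset.mem_sdiff.1 (hC h1)).2
    · intro h1
      exact ⟨Or.inl h1, hB h1⟩
  rcases first_exit (bx_mono hmn hs) hc with ⟨h1, _⟩ | ⟨x, v, hx, hsx, hvx, hv, hvn⟩
  · exact absurd h1 hy.2
  · rw [hAB] at hsx
    obtain ⟨hxl, hvb⟩ := near_layer hN hn hx hvn hvx
    have hhit : Hit N m B x := ⟨s, hs, hsx⟩
    refine ⟨(cnt_pos m _ _).2 ⟨x, hxl, hhit⟩, ?_⟩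
    rw [Finset.not_disjoint_iff]
    refine ⟨v, ?_, ?_⟩
    · rcases Finset.mem_union.1 hv with h1 | h1
      · exact absurd (hB h1) hvn
      · exact h1
    · unfold outer
      rw [Finset.mem_filter, Finset.mem_sdiff]
      exact ⟨⟨hvb, hvn⟩, x, hxl, hhit, hvx⟩

/-- the decrement -/
theorem decr (hN : GoodN N ρ) {p : ℝ} (hp : 0 < p) (hp1 : p < 1) {m n : ℕ} (hn : ρ ≤ n)
    (hmn : m ≤ n) (M₀ : ℕ) :
    PS (bx (0 : Pt k) (n + ρ)) (fun _ => p) (fun A => 1 ≤ cnt N m (lay k (n + ρ) ρ) A) ≤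
      PS (bx (0 : Pt k) n) (fun _ => p) (fun A => 1 ≤ cnt N m (lay k n ρ) A) -
        (1 - p) ^ (M₀ * N.card) * PS (bx (0 : Pt k) n) (fun _ => p)
          (fun A => 1 ≤ cnt N m (lay k n ρ) A ∧ cnt N m (lay k n ρ) A < M₀) := by
  classical
  have hU : ∀ V : Finset (Pt k), U01 V (fun _ => p) := fun V a _ => ⟨hp.le, hp1.le⟩
  have hun : bx (0 : Pt k) n ∪ (bx (0 : Pt k) (n + ρ) \ bx (0 : Pt k) n) =
      bx (0 : Pt k) (n + ρ) := Finset.union_sdiff_of_subset (bx_mono (Nat.le_add_right _ _))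
  have h1 : PS (bx (0 : Pt k) (n + ρ)) (fun _ => p)
      (fun A => 1 ≤ cnt N m (lay k (n + ρ) ρ) A) =
      EX (bx (0 : Pt k) n) (fun _ => p) (fun B => PS (bx (0 : Pt k) (n + ρ) \ bx (0 : Pt k) n)
        (fun _ => p) (fun C => 1 ≤ cnt N m (lay k (n + ρ) ρ) (B ∪ C))) := by
    have h2 := EX_union (V := bx (0 : Pt k) n) (W := bx (0 : Pt k) (n + ρ) \ bx (0 : Pt k) n)
      Finset.disjoint_sdiff (fun _ => p)
      (fun B C => if 1 ≤ cnt N m (lay k (n + ρ) ρ) (B ∪ C) then (1 : ℝ) else 0)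
    rw [hun] at h2
    rw [PS_def]
    simp only [PS_def]
    rw [← h2]
    refine EX_congr (fun _ _ => rfl) fun A hA => ?_
    have h3 : A ∩ bx (0 : Pt k) n ∪ A ∩ (bx (0 : Pt k) (n + ρ) \ bx (0 : Pt k) n) = A := by
      rw [← Finset.inter_union_distrib_left, hun, Finset.inter_eq_left.2 hA]
    rw [h3]
  rw [h1, PS_def, PS_def, ← EX_mul, ← EX_sub]
  refine EX_mono (hU _) fun B hB => ?_
  by_cases hc1 : 1 ≤ cnt N m (lay k n ρ) B
  · rw [if_pos hc1]
    by_cases hc2 : cnt N m (lay k n ρ) B < M₀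
    · rw [if_pos ⟨hc1, hc2⟩, mul_one]
      have h4 : PS (bx (0 : Pt k) (n + ρ) \ bx (0 : Pt k) n) (fun _ => p)
          (fun C => 1 ≤ cnt N m (lay k (n + ρ) ρ) (B ∪ C)) ≤
          PS (bx (0 : Pt k) (n + ρ) \ bx (0 : Pt k) n) (fun _ => p)
          (fun C => ¬ Disjoint C (outer N m n ρ B)) := by
        refine PS_mono (hU _) fun C hC h5 => ?_
        exact (hit_outer hN hn hmn hB hC ((cnt_pos m _ _).1 h5)).2
      refine h4.trans ?_
      rw [PS_not, avoid_prob _ _ (outer_sub m n B)]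
      have h6 : (1 - p) ^ (M₀ * N.card) ≤ (1 - p) ^ (outer N m n ρ B).card := by
        refine pow_le_pow_of_le_one (by linarith) (by linarith) ?_
        exact (outer_card m n B).trans (Nat.mul_le_mul_right _ hc2.le)
      linarith
    · rw [if_neg (fun h => hc2 h.2), mul_zero, sub_zero]
      exact PS_le_one (hU _) _
  · rw [if_neg hc1, if_neg (fun h => hc1 h.1), mul_zero, sub_zero]
    have h4 : PS (bx (0 : Pt k) (n + ρ) \ bx (0 : Pt k) n) (fun _ => p)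
        (fun C => 1 ≤ cnt N m (lay k (n + ρ) ρ) (B ∪ C)) ≤
        PS (bx (0 : Pt k) (n + ρ) \ bx (0 : Pt k) n) (fun _ => p) (fun _ => False) := by
      refine PS_mono (hU _) fun C hC h5 => ?_
      exact hc1 (hit_outer hN hn hmn hB hC ((cnt_pos m _ _).1 h5)).1
    rwa [PS_false] at h4

/-- **Module MANY.** -/
theorem many : ManyStmt := by
  intro k N ρ p hN hp hp1 m η hyp M₀ e he n₁
  have hU : ∀ V : Finset (Pt k), U01 V (fun _ => p) := fun V a _ => ⟨hp.le, hp1.le⟩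
  have hρ : 1 ≤ ρ := by
    have h1 := hN.bd _ hN.unit 0
    simp at h1
    exact_mod_cast h1
  obtain ⟨a, ha⟩ : ∃ a : ℕ → ℝ, a = fun n => PS (bx (0 : Pt k) n) (fun _ => p)
    (fun A => 1 ≤ cnt N m (lay k n ρ) A) := ⟨_, rfl⟩
  obtain ⟨b, hb⟩ : ∃ b : ℕ → ℝ, b = fun n => PS (bx (0 : Pt k) n) (fun _ => p)
    (fun A => 1 ≤ cnt N m (lay k n ρ) A ∧ cnt N m (lay k n ρ) A < M₀) := ⟨_, rfl⟩
  have hdec : ∀ n, ρ ≤ n → m ≤ n → a (n + ρ) ≤ a n - (1 - p) ^ (M₀ * N.card) * b n := by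
    intro n hn hmn
    rw [ha, hb]
    exact decr hN hp hp1 hn hmn M₀
  have ha0 : ∀ n, 0 ≤ a n := by
    intro n
    rw [ha]
    exact PS_nonneg (hU _) _
  have ha1 : ∀ n, a n ≤ 1 := by
    intro n
    rw [ha]
    exact PS_le_one (hU _) _
  have halow : ∀ n, m + ρ ≤ n → 1 - η ≤ a n := by
    intro n hn
    have h1 := hyp (n - ρ) (by omega)
    have h2 : n - ρ + ρ = n := by omega
    rw [h2] at h1
    rw [ha]
    refine h1.trans (le_of_eq (PS_congr (fun _ _ => rfl) fun A _ => ?_))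
    rw [cnt_pos]
    exact Iff.rfl
  obtain ⟨κ, hκ⟩ : ∃ κ : ℝ, κ = (1 - p) ^ (M₀ * N.card) := ⟨_, rfl⟩
  have hκ0 : 0 < κ := by rw [hκ]; exact pow_pos (by linarith) _
  rw [← hκ] at hdec
  -- a small decrement
  have hex : ∃ j : ℕ, b (n₁ + m + ρ + j * ρ) ≤ e := by
    by_contra hno
    push Not at hno
    have hind : ∀ j : ℕ, a (n₁ + m + ρ + j * ρ) ≤ a (n₁ + m + ρ) - j * (κ * e) := by
      intro j
      induction j with
      | zero => simp
      | succ j ih =>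
        have h1 := hdec (n₁ + m + ρ + j * ρ) (by omega) (by omega)
        have h2 : n₁ + m + ρ + j * ρ + ρ = n₁ + m + ρ + (j + 1) * ρ := by ring
        rw [h2] at h1
        have h3 := mul_lt_mul_of_pos_left (hno j) hκ0
        push_cast
        linarith
    obtain ⟨j, hj⟩ := exists_nat_gt (1 / (κ * e))
    have h1 := hind j
    have h2 := ha0 (n₁ + m + ρ + j * ρ)
    have h3 := ha1 (n₁ + m + ρ)
    rw [div_lt_iff₀ (mul_pos hκ0 he)] at hj
    linarith
  obtain ⟨j, hj⟩ := hex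
  refine ⟨n₁ + m + ρ + j * ρ, by omega, ?_⟩
  have h1 := halow (n₁ + m + ρ + j * ρ) (by omega)
  have h2 : a (n₁ + m + ρ + j * ρ) ≤ PS (bx (0 : Pt k) (n₁ + m + ρ + j * ρ)) (fun _ => p)
      (fun A => M₀ ≤ cnt N m (lay k (n₁ + m + ρ + j * ρ) ρ) A) + b (n₁ + m + ρ + j * ρ) := by
    rw [ha, hb]
    refine le_trans (PS_mono (hU _) ?_) (PS_or_le (hU _) _ _)
    intro A _ hA
    by_cases h : M₀ ≤ cnt N m (lay k (n₁ + m + ρ + j * ρ) ρ) A
    · exact Or.inl h
    · exact Or.inr ⟨hA, not_le.1 h⟩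
  linarith

end Pool.Agent.TP.H10
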