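import Pool.Agent.Helper28_TP.StS

/-!
# Module STA (MP_e1bfc2_pr, squad TPM): the static theorem
-/

set_option autoImplicit false

namespace Pool.Agent.TP.H10

open Pool.Agent.TP

theorem pow_bound : ∀ l : ℕ, 20 ≤ l → 2 * (l + 1) ^ 4 + 4 * (l + 1) ^ 2 ≤ 2 ^ (l - 1) := by
  intro l hl
  induction l, hl using Nat.le_induction with
  | base => norm_num
  | succ l hl ih =>
    have h1 : 2 ^ (l + 1 - 1) = 2 * 2 ^ (l - 1) := by
      rw [← pow_succ']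
      congr 1
      omega
    rw [h1]
    refine le_trans ?_ (Nat.mul_le_mul_left 2 ih)
    obtain ⟨t, ht⟩ : ∃ t, t = l + 1 := ⟨_, rfl⟩
    have ht2 : 21 ≤ t := by omega
    rw [← ht]
    have e1 : 21 * t ^ 3 ≤ t ^ 4 := by
      rw [pow_succ t 3, mul_comm (t ^ 3) t]
      exact Nat.mul_le_mul_right _ ht2
    have e2 : 21 * t ^ 2 ≤ t ^ 3 := by
      rw [pow_succ t 2, mul_comm (t ^ 2) t]
      exact Nat.mul_le_mul_right _ ht2
    have e3 : 21 * t ≤ t ^ 2 := by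
      rw [pow_two]
      exact Nat.mul_le_mul_right _ ht2
    nlinarith

theorem vis_mono {k : ℕ} {N : Finset (Pt k)} {D B : ℕ} {C : Finset (ℤ × ℤ)} {O O' : Finset (Pt k)}
    (h : O ⊆ O') (hV : Vis N D B C O) : Vis N D B C O' := by
  obtain ⟨S, h1, h2, h3⟩ := hV
  exact ⟨S, h1.trans h, h2, h3⟩

theorem strEv_mono {k : ℕ} {N : Finset (Pt k)} {D B : ℕ} {x₀ x₁ x₂ H : ℤ} {O O' : Finset (Pt k)}
    (h : O ⊆ O') (hV : StrEv N D B x₀ x₁ x₂ H O) : StrEv N D B x₀ x₁ x₂ H O' := by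
  obtain ⟨C, h1, h2⟩ := hV
  exact ⟨C, h1, vis_mono h h2⟩

theorem small_term (h l : ℕ) (hh : 1 ≤ h) (hl : l ≤ h) :
    (h : ℝ) * ((2 ^ (l + 2) - 2 ^ l + 1) * (2 * h + 1) * (1 / 16 : ℝ) ^ (2 * h + 1)) ≤
      Real.exp (-h) := by
  have a1 : (h : ℝ) ≤ 2 ^ h := by exact_mod_cast (Nat.lt_two_pow_self (n := h)).le
  have a2 : (2 * h + 1 : ℝ) ≤ 2 * 2 ^ h := by
    have h1 : h + 1 ≤ 2 ^ h := Nat.lt_two_pow_self
    have h2 : 2 * h + 1 ≤ 2 * 2 ^ h := by omega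
    exact_mod_cast h2
  have a3 : (2 ^ (l + 2) - 2 ^ l + 1 : ℝ) ≤ 8 * 2 ^ h := by
    have h1 : (2 : ℝ) ^ l ≤ 2 ^ h := pow_le_pow_right₀ (by norm_num) hl
    have h2 : (1 : ℝ) ≤ 2 ^ l := one_le_pow₀ (by norm_num)
    rw [pow_add]
    nlinarith
  have a4 : (0 : ℝ) ≤ 2 ^ (l + 2) - 2 ^ l + 1 := by
    have h2 : (0 : ℝ) ≤ 2 ^ l := by positivity
    rw [pow_add]
    nlinarith
  have a5 : (1 / 16 : ℝ) ^ (2 * h + 1) = (1 / 16) * (1 / 256) ^ h := by
    rw [pow_succ, pow_mul]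
    norm_num
    ring
  have a6 : (1 / 32 : ℝ) ^ h ≤ Real.exp (-h) := by
    have h1 : (1 / 32 : ℝ) ≤ Real.exp (-1) := by
      rw [Real.exp_neg, one_div]
      exact inv_anti₀ (Real.exp_pos _) (Real.exp_one_lt_d9.le.trans (by norm_num))
    have h2 := pow_le_pow_left₀ (by norm_num) h1 h
    rw [← Real.exp_nat_mul] at h2
    simpa using h2
  refine le_trans ?_ a6
  have a7 : (h : ℝ) * ((2 ^ (l + 2) - 2 ^ l + 1) * (2 * h + 1) * (1 / 16 : ℝ) ^ (2 * h + 1)) ≤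
      2 ^ h * ((8 * 2 ^ h) * (2 * 2 ^ h) * ((1 / 16) * (1 / 256) ^ h)) := by
    rw [a5]
    refine mul_le_mul a1 ?_ (by positivity) (by positivity)
    refine mul_le_mul_of_nonneg_right ?_ (by positivity)
    exact mul_le_mul a3 a2 (by positivity) (by positivity)
  refine a7.trans (le_of_eq ?_)
  have a8 : (2 : ℝ) ^ h * (2 ^ h) * (2 ^ h) * (1 / 256) ^ h = (1 / 32) ^ h := by
    rw [← mul_pow, ← mul_pow, ← mul_pow]
    norm_num
  rw [← a8]
  ring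

theorem eps_pow (ε : ℝ) (h : ε ≤ 1) : 1 - 144 * ε ≤ (1 - ε) ^ KK := by
  have h1 : 1 + ((144 : ℕ) : ℝ) * (-ε) ≤ (1 + -ε) ^ (144 : ℕ) :=
    one_add_mul_le_pow (by linarith) 144
  have h2 : (1 - ε) ^ KK = (1 + -ε) ^ (144 : ℕ) := by
    rw [← sub_eq_add_neg]
    rfl
  rw [h2]
  refine le_trans (le_of_eq ?_) h1
  push_cast
  ring

theorem pp_bounds (p p' : ℝ) (hp : 0 < p) (hpp : p < p') (hp' : p' < 1) :
    0 ≤ 1 - (1 - p) * (1 - (p' - p) / 144) ^ KK ∧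
      1 - (1 - p) * (1 - (p' - p) / 144) ^ KK ≤ p' := by
  have hε1 : (p' - p) / 144 ≤ 1 := by linarith
  have hε0 : 0 ≤ (p' - p) / 144 := by linarith
  have hP1 := eps_pow _ hε1
  have hP2 : (1 - (p' - p) / 144) ^ KK ≤ 1 := pow_le_one₀ (by linarith) (by linarith)
  generalize (1 - (p' - p) / 144) ^ KK = P at *
  have h5 := mul_le_mul_of_nonneg_left hP1 (show 0 ≤ 1 - p by linarith)
  have h6 := mul_nonneg hp.le (show 0 ≤ p' - p by linarith)
  have h7 := mul_le_mul_of_nonneg_left hP2 (show 0 ≤ 1 - p by linarith)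
  constructor
  · linarith
  · linarith

theorem layer_prob {k : ℕ} (p ε : ℝ) (K : ℕ) (a : Pt k) :
    1 - ∏ j ∈ Finset.range (K + 1), (1 - q0 p ε (a, j)) = 1 - (1 - p) * (1 - ε) ^ K := by
  rw [Finset.prod_range_succ', Finset.prod_congr rfl (g := fun _ => 1 - ε)
    (fun j _ => by simp [q0]), Finset.prod_const, Finset.card_range]
  have : q0 p ε (a, 0) = p := by simp [q0]
  rw [this, mul_comm]

theorem vol_ok (k m n l h : ℕ) (hl : 1 ≤ l) (hpb : 2 * (h : ℤ) ^ 2 + 4 * h ≤ 2 ^ (l - 1))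
    (hh1 : 1 ≤ h) :
    VolOK m n (Finset.Icc ((2 : ℤ) ^ l) (2 ^ (l + 2)) ×ˢ Finset.Icc 0 (2 * (h : ℤ)))
      (bx (0 : Pt k) (10 * (n + m + 1) * 2 ^ (l + 3))) := by
  intro z hz v hv hv2
  have hpow : (2 : ℤ) ^ l = 2 * 2 ^ (l - 1) := by
    rw [← pow_succ']
    congr 1
    omega
  have hhz : (1 : ℤ) ≤ h := by exact_mod_cast hh1
  rw [Finset.mem_product, Finset.mem_Icc, Finset.mem_Icc] at hz
  obtain ⟨⟨hz1, hz2⟩, hz3, hz4⟩ := hz
  rw [mem_bx]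
  intro i
  have hMs : (1 : ℤ) ≤ Ms m n := by unfold Ms; omega
  have hMs' : (n : ℤ) + m + 1 = Ms m n := rfl
  have e8 : (2 : ℤ) ^ (l + 3) = 16 * 2 ^ (l - 1) := by
    rw [pow_add, hpow]; ring
  have e4 : (2 : ℤ) ^ (l + 2) = 8 * 2 ^ (l - 1) := by
    rw [pow_add, hpow]; ring
  have hpos : (1 : ℤ) ≤ 2 ^ (l - 1) := one_le_pow₀ (by norm_num)
  push_cast
  rw [hMs', e8]
  rw [hpow] at hz1
  rw [e4] at hz2
  obtain ⟨hv0, hv1⟩ := hv
  simp only [cen] at hv0 hv1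
  simp only [if_true] at hv0
  have h10 : ((1 : Fin (k + 2)) = 0) = False := by simp
  simp only [h10, if_false, if_true] at hv1
  rw [Pi.zero_apply, sub_zero]
  generalize Ms m n = M at *
  generalize (2 : ℤ) ^ (l - 1) = T at *
  have hMT : 1 * 1 ≤ M * T := mul_le_mul hMs hpos (by norm_num) (by linarith)
  have hT6 : 6 ≤ T := by nlinarith
  have hMT6 : M * 6 ≤ M * T := mul_le_mul_of_nonneg_left hT6 (by linarith)
  have a1 : M * (2 * T) ≤ M * z.1 := mul_le_mul_of_nonneg_left hz1 (by linarith)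
  have a2 : M * z.1 ≤ M * (8 * T) := mul_le_mul_of_nonneg_left hz2 (by linarith)
  have a3 : M * 0 ≤ M * z.2 := mul_le_mul_of_nonneg_left hz3 (by linarith)
  have a4 : M * z.2 ≤ M * (2 * h) := mul_le_mul_of_nonneg_left hz4 (by linarith)
  have a5 : (2 : ℤ) * h ≤ T := by nlinarith
  have a6 : M * (2 * h) ≤ M * T := mul_le_mul_of_nonneg_left a5 (by linarith)
  by_cases hi0 : i = 0
  · rw [hi0]
    rw [abs_le] at hv0 ⊢
    constructor <;> linarith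
  · by_cases hi1 : i = 1
    · rw [hi1]
      rw [abs_le] at hv1 ⊢
      constructor <;> linarith
    · refine (hv2 i hi0 hi1).trans ?_
      linarith

theorem final_bound (u c : ℝ) (h l : ℕ) (hu0 : 0 < u) (hc0 : 0 < c) (hc1 : 2 * c ≤ -Real.log u)
    (hc2 : 2 * c ≤ 1) (hh1 : 1 ≤ h) (hlh : l ≤ h) (hlc : Real.log 2 / c ≤ l) :
    u ^ h + h * ((2 ^ (l + 2) - 2 ^ l + 1) * (2 * h + 1) * (1 / 16 : ℝ) ^ (2 * h + 1)) ≤
      Real.exp (-(c * h)) := by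
  have b0 : (0 : ℝ) ≤ h := Nat.cast_nonneg _
  have b1 : u ^ h ≤ Real.exp (-(2 * c * h)) := by
    have e : u ^ h = Real.exp (h * Real.log u) := by
      rw [Real.exp_nat_mul, Real.exp_log hu0]
    rw [e]
    apply Real.exp_le_exp.2
    nlinarith
  have b2 : (h : ℝ) * ((2 ^ (l + 2) - 2 ^ l + 1) * (2 * h + 1) * (1 / 16 : ℝ) ^ (2 * h + 1)) ≤
      Real.exp (-(2 * c * h)) := by
    refine (small_term h l hh1 hlh).trans (Real.exp_le_exp.2 ?_)
    nlinarith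
  have b3 : Real.exp (-(c * h)) ≤ 1 / 2 := by
    have h1 : Real.log 2 ≤ c * h := by
      rw [div_le_iff₀ hc0] at hlc
      have h2 : (l : ℝ) ≤ h := by exact_mod_cast hlh
      nlinarith
    have h3 : Real.exp (-(c * h)) ≤ Real.exp (-Real.log 2) := Real.exp_le_exp.2 (by linarith)
    rw [Real.exp_neg (Real.log 2), Real.exp_log (by norm_num)] at h3
    linarith
  have b4 : Real.exp (-(2 * c * h)) = Real.exp (-(c * h)) * Real.exp (-(c * h)) := by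
    rw [← Real.exp_add]
    congr 1
    ring
  have b5 := Real.exp_pos (-(c * h))
  rw [b4] at b1 b2
  generalize Real.exp (-(c * h)) = y at *
  generalize u ^ h = z at *
  refine (add_le_add b1 b2).trans ?_
  nlinarith

/-- **Module STA.** -/
theorem sta (hM : PsmStmt) (hL : PslStmt) (hS : StepStmt) (hR : RunStmt) : StaStmt := by
  intro k N ρ p p' θ hN hp hpp hp' hθ hperc
  have hε0 : 0 < (p' - p) / 144 := by linarith
  have hε1 : (p' - p) / 144 < 1 := by linarith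
  obtain ⟨m, n, -, hmn, hstep⟩ := hS k N ρ p ((p' - p) / 144) θ hN hp (hpp.trans hp') hε0 hε1 hθ
    hperc (1 / 16384) (by norm_num) 0
  obtain ⟨u, hu⟩ : ∃ u : ℝ, u = 1 - p ^ ((2 * m + 1) ^ (k + 2)) / 2 := ⟨_, rfl⟩
  have hq0 : 0 < p ^ ((2 * m + 1) ^ (k + 2)) := pow_pos hp _
  have hq1 : p ^ ((2 * m + 1) ^ (k + 2)) ≤ 1 := pow_le_one₀ hp.le (hpp.trans hp').le
  have hu0 : 0 < u := by rw [hu]; linarith
  have hu1 : u < 1 := by rw [hu]; linarith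
  clear hq0 hq1
  have hlog : Real.log u < 0 := Real.log_neg hu0 hu1
  obtain ⟨c, hc⟩ : ∃ c : ℝ, c = min (-Real.log u) 1 / 2 := ⟨_, rfl⟩
  have hc0 : 0 < c := by
    rw [hc]
    have : 0 < min (-Real.log u) 1 := lt_min (by linarith) one_pos
    linarith
  have hc1 : 2 * c ≤ -Real.log u := by
    have := min_le_left (-Real.log u) 1
    rw [hc]; linarith
  have hc2 : 2 * c ≤ 1 := by
    have := min_le_right (-Real.log u) 1
    rw [hc]; linarith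
  refine ⟨10 * (n + m + 1), 2 * (n + m + 1), c, max 20 ⌈Real.log 2 / c⌉₊, by omega, by omega, hc0,
    le_trans (by norm_num) (le_max_left _ _), ?_⟩
  intro l hl
  have hl20 : 20 ≤ l := (le_max_left _ _).trans hl
  have hlc : Real.log 2 / c ≤ l :=
    (Nat.le_ceil _).trans (by exact_mod_cast (le_max_right 20 ⌈Real.log 2 / c⌉₊).trans hl)
  obtain ⟨h, hh⟩ : ∃ h : ℕ, h = (l + 1) ^ 2 := ⟨_, rfl⟩
  have hh1 : 1 ≤ h := by rw [hh]; exact Nat.one_le_pow _ _ (by omega)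
  have hlh : l ≤ h := by rw [hh]; nlinarith
  have hpbz : 2 * (h : ℤ) ^ 2 + 4 * h ≤ 2 ^ (l - 1) := by
    have h1 : 2 * h ^ 2 + 4 * h ≤ 2 ^ (l - 1) := by
      rw [hh]
      refine le_trans (le_of_eq ?_) (pow_bound l hl20)
      ring
    exact_mod_cast h1
  have hhR : (h : ℝ) = ((l : ℝ) + 1) ^ 2 := by rw [hh]; push_cast; ring
  have hH : 2 * (h : ℤ) = 2 * ((l : ℤ) + 1) ^ 2 := by rw [hh]; push_cast; ring
  have hpow : (2 : ℤ) ^ l = 2 * 2 ^ (l - 1) := by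
    rw [← pow_succ']
    congr 1
    omega
  have c1 : (2 : ℤ) ^ l + (h : ℤ) * (2 * h + 4) ≤ 3 * 2 ^ (l - 1) := by
    rw [hpow]
    linarith [show (h : ℤ) * (2 * h + 4) = 2 * (h : ℤ) ^ 2 + 4 * h by ring]
  have c2 : (3 : ℤ) * 2 ^ (l - 1) + 2 * h ≤ 2 ^ (l + 2) := by
    rw [pow_add, hpow]
    have : (0 : ℤ) ≤ (h : ℤ) ^ 2 := by positivity
    have h0 : (0 : ℤ) ≤ h := by positivity
    linarith
  have hrun := hR k N ρ p ((p' - p) / 144) m n (1 / 16384) hN hmn hp (hpp.trans hp') hε0 hε1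
    (by norm_num) (by norm_num) (hstep KK) (bx (0 : Pt k) (10 * (n + m + 1) * 2 ^ (l + 3)))
    (2 ^ l) (3 * 2 ^ (l - 1)) (2 ^ (l + 2)) h h hh1 c1 c2 (vol_ok k m n l h (by omega) hpbz hh1)
  have hsl := hL (Pt k) (bx (0 : Pt k) (10 * (n + m + 1) * 2 ^ (l + 3))) KK
    (q0 p ((p' - p) / 144)) (fun O => ¬ StrEv N (10 * (n + m + 1)) (2 * (n + m + 1))
    (2 ^ l) (3 * 2 ^ (l - 1)) (2 ^ (l + 2)) (2 * h) O)
  rw [hsl, PS_not, ← hu] at hrun
  obtain ⟨hge, hle⟩ := pp_bounds p p' hp hpp hp'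
  have hmono := hM (Pt k) (bx (0 : Pt k) (10 * (n + m + 1) * 2 ^ (l + 3)))
    (fun a => 1 - ∏ j ∈ Finset.range (KK + 1), (1 - q0 p ((p' - p) / 144) (a, j)))
    (fun _ => p') (fun a _ => by
      have e := layer_prob p ((p' - p) / 144) KK a
      simp only [e]
      exact ⟨hge, hle.trans hp'.le⟩) (fun a _ => ⟨(hp.trans hpp).le, hp'.le⟩) (fun a _ => by
      have e := layer_prob p ((p' - p) / 144) KK a
      simp only [e]
      exact hle)
    (fun O => StrEv N (10 * (n + m + 1)) (2 * (n + m + 1))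
    (2 ^ l) (3 * 2 ^ (l - 1)) (2 ^ (l + 2)) (2 * h) O) (fun A B hAB hA => strEv_mono hAB hA)
  have hfin := final_bound u c h l hu0 hc0 hc1 hc2 hh1 hlh hlc
  rw [← hhR]
  refine le_trans ?_ hfin
  unfold StrL
  rw [← hH, PS_not]
  refine le_trans (sub_le_sub_left hmono 1) (hrun.trans (le_of_eq ?_))
  have e : (1024 * (1 / 16384) : ℝ) = 1 / 16 := by norm_num
  rw [e]
  push_cast
  rfl

end Pool.Agent.TP.H10
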